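import Mathlib
import Pool.Agent.TH447.FP.FourCore

/-!
Posets of finite length with a special element `s` have the fixed point property if all chains
that consist of elements `m` and `m ∨ x`, with `m ≤ s` and `x` without a meet with `s`, have at most
five elements; in particular if all chains of the poset have at most five elements.
-/

set_option autoImplicit false

namespace Pool.Agent.Results.MP_3976d4_co.CoreChainsFive

/-- Let `P` be a poset of finite length and `s` a special element. If every chain of elements of
the form `m` or `m ∨ x`, where `m ≤ s` and the meet of `s` and `x` does not exist, has at most five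
elements, then every order preserving self-map of `P` has a fixed point. -/
theorem result :
    ∀ (P : Type) [PartialOrder P],
      (∃ n : ℕ, ∀ c : Finset P, IsChain (· ≤ ·) (c : Set P) → c.card ≤ n) →
      ∀ s : P,
        (∀ x : P, (∃ z : P, IsLUB ({s, x} : Set P) z) ∨ (∃ z : P, IsGLB ({s, x} : Set P) z)) →
        (∀ x y : P, x < y → (¬ ∃ z : P, IsGLB ({s, x} : Set P) z) →
          ∀ m : P, IsGLB ({s, y} : Set P) m → ∃ z : P, IsLUB ({m, x} : Set P) z) →
        (∀ c : Finset P, IsChain (· ≤ ·) (c : Set P) →
          (∀ z ∈ c, z ≤ s ∨ ∃ m x : P, m ≤ s ∧ (¬ ∃ w : P, IsGLB ({s, x} : Set P) w) ∧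
            IsLUB ({m, x} : Set P) z) → c.card ≤ 5) →
        ∀ f : P → P, Monotone f → ∃ x : P, f x = x := by
  classical
  intro P _ hlen s h1 h2 hcore f hf
  obtain ⟨n, hn⟩ := hlen
  by_contra hno
  have hne : ∀ x, f x ≠ x := fun x hx => hno ⟨x, hx⟩
  have HL : ∀ a1 a2 a3 a4 a5 a6 : P, Pool.Agent.TH447.FP.Core s a1 →
      Pool.Agent.TH447.FP.Core s a2 → Pool.Agent.TH447.FP.Core s a3 →
      Pool.Agent.TH447.FP.Core s a4 → Pool.Agent.TH447.FP.Core s a5 →
      Pool.Agent.TH447.FP.Core s a6 →
      a1 < a2 → a2 < a3 → a3 < a4 → a4 < a5 → a5 < a6 → False := by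
    intro a1 a2 a3 a4 a5 a6 c1 c2 c3 c4 c5 c6 l1 l2 l3 l4 l5
    have hg : StrictMono (![a1, a2, a3, a4, a5, a6] : Fin 6 → P) := by
      rw [Fin.strictMono_iff_lt_succ]
      intro i
      fin_cases i
      · exact l1
      · exact l2
      · exact l3
      · exact l4
      · exact l5
    have hcr : ∀ i, Pool.Agent.TH447.FP.Core s ((![a1, a2, a3, a4, a5, a6] : Fin 6 → P) i) := by
      intro i
      fin_cases i
      · exact c1
      · exact c2
      · exact c3
      · exact c4
      · exact c5
      · exact c6
    have hc := hcore (Finset.univ.image (![a1, a2, a3, a4, a5, a6] : Fin 6 → P)) (by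
      rintro x hx y hy _
      simp only [Finset.coe_image, Finset.coe_univ, Set.image_univ, Set.mem_range] at hx hy
      obtain ⟨i, rfl⟩ := hx
      obtain ⟨j, rfl⟩ := hy
      rcases le_total i j with h | h
      · exact Or.inl (hg.monotone h)
      · exact Or.inr (hg.monotone h)) (by
      intro z hz
      rw [Finset.mem_image] at hz
      obtain ⟨i, _, rfl⟩ := hz
      exact hcr i)
    rw [Finset.card_image_of_injective _ hg.injective] at hc
    simp at hc
  have hmono : ∀ g : ℕ → P, (∀ i j, g i ≤ g j ∨ g j ≤ g i) → Function.Injective g → False := by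
    intro g hg hinj
    have hc := hn ((Finset.range (n + 1)).image g) (by
      rintro x hx y hy _
      simp only [Finset.coe_image, Set.mem_image] at hx hy
      obtain ⟨i, _, rfl⟩ := hx
      obtain ⟨j, _, rfl⟩ := hy
      exact hg i j)
    rw [Finset.card_image_of_injective _ hinj, Finset.card_range] at hc
    omega
  refine Pool.Agent.TH447.FP.fourCore s f hf HL h1 h2 (Or.inl le_rfl) ?_ ?_
  · intro x hx
    have hs : StrictMono (fun k => f^[k] x) := by
      apply strictMono_nat_of_lt_succ
      intro k
      refine lt_of_le_of_ne ?_ ?_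
      · rw [Function.iterate_succ_apply]
        exact hf.iterate k hx
      · rw [Function.iterate_succ_apply']
        exact (hne _).symm
    exact hmono _ (fun i j => (le_total i j).imp (fun h => hs.monotone h) (fun h => hs.monotone h))
      hs.injective
  · intro x hx
    have hs : StrictAnti (fun k => f^[k] x) := by
      apply strictAnti_nat_of_succ_lt
      intro k
      refine lt_of_le_of_ne ?_ ?_
      · rw [Function.iterate_succ_apply]
        exact hf.iterate k hx
      · rw [Function.iterate_succ_apply']
        exact hne _
    exact hmono _ (fun i j => (le_total j i).imp (fun h => hs.antitone h) (fun h => hs.antitone h))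
      hs.injective

end Pool.Agent.Results.MP_3976d4_co.CoreChainsFive
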