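import Pool.Agent.H444R2.SE.All

set_option autoImplicit false

namespace Pool.Agent.Results.MP_3976d4_co.LatticeFullJoins

/-!
The lattice form of the question. Let `L` be a bounded lattice of finite length and `s ≠ 0, 1`, and
suppose that no chain `x < y < z < 1` starts at an element `x` with `s ∨ x = 1` and `s ∧ x ≠ 0`.
Then `L` minus `0`, `1` and all complements of `s` has the fixed point property.

Proof idea: this poset is a retract of the poset of all pairs `(a, b)` in `L × L` such that either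
`a = b` is in the poset, or `a ≤ b`, `s ∨ a ≠ 1`, `s ∨ b = 1` and `s ∧ b ≠ 0`; the retraction is
`(a, b) ↦ a ∨ (s ∧ b)`. The pair `(0, 1)` is a special element of the poset of pairs, and the
elements below it are the pairs `(0, b)`, so that the theorem `HeightTwo` of this folder applies.
-/

/-- The elements of `L` different from `⊥`, `⊤` and from all complements of `s`. -/
def Core {L : Type} [Lattice L] [BoundedOrder L] (s : L) : Type :=
  {x : L // x ≠ ⊥ ∧ x ≠ ⊤ ∧ ¬ IsCompl s x}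

instance {L : Type} [Lattice L] [BoundedOrder L] (s : L) : PartialOrder (Core s) :=
  inferInstanceAs (PartialOrder {x : L // x ≠ ⊥ ∧ x ≠ ⊤ ∧ ¬ IsCompl s x})

theorem result :
    ∀ (L : Type) [Lattice L] [BoundedOrder L],
      (∃ n : ℕ, ∀ c : Finset L, IsChain (· ≤ ·) (c : Set L) → c.card ≤ n) →
      ∀ s : L, s ≠ ⊥ → s ≠ ⊤ →
        (∀ x y z : L, s ⊔ x = ⊤ → s ⊓ x ≠ ⊥ → x < y → y < z → z = ⊤) →
        ∀ f : Core s → Core s, Monotone f → ∃ x : Core s, f x = x := by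
  classical
  intro L _ _ hlen s hs0 hs1 hco f hf
  let P := {p : L × L // (p.1 = p.2 ∧ p.1 ≠ ⊥ ∧ p.1 ≠ ⊤ ∧ ¬ IsCompl s p.1) ∨
    (s ⊔ p.1 ≠ ⊤ ∧ s ⊔ p.2 = ⊤ ∧ s ⊓ p.2 ≠ ⊥ ∧ p.1 ≤ p.2)}
  let σ : P := ⟨(⊥, ⊤), Or.inr ⟨by simpa using hs1, by simp, by simpa using hs0, bot_le⟩⟩
  have hr : ∀ p : P, p.1.1 ⊔ (s ⊓ p.1.2) ≠ ⊥ ∧ p.1.1 ⊔ (s ⊓ p.1.2) ≠ ⊤ ∧
      ¬ IsCompl s (p.1.1 ⊔ (s ⊓ p.1.2)) := by
    rintro ⟨⟨a, b⟩, h⟩
    simp only at h ⊢
    rcases h with ⟨hab, h1, h2, h3⟩ | ⟨h1, h2, h3, h4⟩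
    · subst hab
      rw [sup_eq_left.2 (inf_le_right : s ⊓ a ≤ a)]
      exact ⟨h1, h2, h3⟩
    · refine ⟨?_, ?_, ?_⟩
      · intro h
        exact h3 (le_bot_iff.1 (le_sup_right.trans h.le))
      · intro h
        apply h1
        apply top_le_iff.1
        rw [← h]
        exact sup_le le_sup_right (inf_le_left.trans le_sup_left)
      · intro h
        have h5 := h.inf_eq_bot
        apply h3
        apply le_bot_iff.1
        rw [← h5]
        exact le_inf inf_le_left le_sup_right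
  let r : P → Core s := fun p => ⟨p.1.1 ⊔ (s ⊓ p.1.2), hr p⟩
  have hrmono : Monotone r := by
    intro p q hpq
    show p.1.1 ⊔ (s ⊓ p.1.2) ≤ q.1.1 ⊔ (s ⊓ q.1.2)
    have h : p.1 ≤ q.1 := hpq
    exact sup_le_sup h.1 (inf_le_inf_left s h.2)
  let F : P → P := fun p => ⟨((f (r p)).1, (f (r p)).1), Or.inl ⟨rfl, (f (r p)).2⟩⟩
  have hFmono : Monotone F := by
    intro p q hpq
    have h : (f (r p)).1 ≤ (f (r q)).1 := hf (hrmono hpq)
    show ((f (r p)).1, (f (r p)).1) ≤ ((f (r q)).1, (f (r q)).1)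
    exact ⟨h, h⟩
  -- elements below `σ`
  have hbelow : ∀ p : P, p ≤ σ → p.1.1 = ⊥ ∧ s ⊔ p.1.2 = ⊤ ∧ s ⊓ p.1.2 ≠ ⊥ := by
    intro p hp
    have h : p.1 ≤ ((⊥ : L), (⊤ : L)) := hp
    have h0 : p.1.1 = ⊥ := le_bot_iff.1 h.1
    rcases p.2 with h1 | h1
    · exact absurd h0 h1.2.1
    · exact ⟨h0, h1.2.1, h1.2.2.1⟩
  -- meets with `σ`
  have hglb : ∀ (p : P) (_ : s ⊔ p.1.2 = ⊤) (_ : s ⊓ p.1.2 ≠ ⊥),
      ∃ z : P, z.1 = (⊥, p.1.2) ∧ IsGLB ({σ, p} : Set P) z := by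
    intro p h1 h2
    refine ⟨⟨(⊥, p.1.2), Or.inr ⟨by simpa using hs1, h1, h2, bot_le⟩⟩, rfl, ?_, ?_⟩
    · intro q hq
      simp only [Set.mem_insert_iff, Set.mem_singleton_iff] at hq
      rcases hq with hq | hq
      · rw [hq]
        exact ⟨le_refl _, le_top⟩
      · rw [hq]
        exact ⟨bot_le, le_refl _⟩
    · intro q hq
      have h3 : q ≤ σ := hq (Set.mem_insert _ _)
      have h4 : q ≤ p := hq (Set.mem_insert_of_mem _ rfl)
      exact ⟨(h3 : q.1 ≤ σ.1).1, (h4 : q.1 ≤ p.1).2⟩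
  -- joins with `σ`
  have hlub : ∀ (p : P) (_ : s ⊔ p.1.1 ≠ ⊤), ∃ z : P, IsLUB ({σ, p} : Set P) z := by
    intro p h1
    refine ⟨⟨(p.1.1, ⊤), Or.inr ⟨h1, by simp, by simpa using hs0, le_top⟩⟩, ?_, ?_⟩
    · intro q hq
      simp only [Set.mem_insert_iff, Set.mem_singleton_iff] at hq
      rcases hq with hq | hq
      · rw [hq]
        exact ⟨bot_le, le_refl _⟩
      · rw [hq]
        exact ⟨le_refl _, le_top⟩
    · intro q hq
      have h3 : σ ≤ q := hq (Set.mem_insert _ _)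
      have h4 : p ≤ q := hq (Set.mem_insert_of_mem _ rfl)
      exact ⟨(h4 : p.1 ≤ q.1).1, (h3 : σ.1 ≤ q.1).2⟩
  have hmain := Pool.Agent.H444R2.SE.all_F4 P ?_ σ ?_ ?_ (Or.inr ?_) F hFmono
  · obtain ⟨p, hp⟩ := hmain
    refine ⟨f (r p), ?_⟩
    have h1 : p.1 = ((f (r p)).1, (f (r p)).1) := by
      rw [← congrArg Subtype.val hp]
    have h2 : r p = f (r p) := by
      apply Subtype.ext
      show p.1.1 ⊔ (s ⊓ p.1.2) = (f (r p)).1
      rw [h1]
      exact sup_eq_left.2 inf_le_right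
    rw [← h2]
    exact h2.symm
  · obtain ⟨n, hn⟩ := hlen
    refine ⟨n * n, ?_⟩
    intro c hc
    have hch : ∀ g : P → L, Monotone g → (c.image g).card ≤ n := by
      intro g hg
      apply hn
      intro x hx y hy hxy
      rw [Finset.mem_coe, Finset.mem_image] at hx hy
      obtain ⟨x', hx', rfl⟩ := hx
      obtain ⟨y', hy', rfl⟩ := hy
      have hne : x' ≠ y' := fun h => hxy (by rw [h])
      rcases hc hx' hy' hne with h | h
      · exact Or.inl (hg h)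
      · exact Or.inr (hg h)
    have h1 := hch (fun p => p.1.1) (fun p q h => (h : p.1 ≤ q.1).1)
    have h2 := hch (fun p => p.1.2) (fun p q h => (h : p.1 ≤ q.1).2)
    have h3 : c.card ≤ ((c.image fun p : P => p.1.1) ×ˢ (c.image fun p : P => p.1.2)).card := by
      apply Finset.card_le_card_of_injOn (fun p : P => p.1)
      · intro p hp
        rw [Finset.mem_coe, Finset.mem_product]
        exact ⟨Finset.mem_image_of_mem _ hp, Finset.mem_image_of_mem _ hp⟩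
      · intro p _ q _ h
        exact Subtype.ext h
    rw [Finset.card_product] at h3
    exact h3.trans (Nat.mul_le_mul h1 h2)
  · intro p
    rcases p.2 with h | h
    · by_cases h1 : s ⊔ p.1.1 = ⊤
      · right
        have h2 : s ⊓ p.1.1 ≠ ⊥ := fun h2 => h.2.2.2 (IsCompl.of_eq h2 h1)
        rw [h.1] at h1 h2
        obtain ⟨z, _, hz⟩ := hglb p h1 h2
        exact ⟨z, hz⟩
      · exact Or.inl (hlub p h1)
    · exact Or.inl (hlub p h.1)
  · intro p q hpq hp m hm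
    -- `p` is on the diagonal
    have hpd : p.1.1 = p.1.2 ∧ s ⊔ p.1.1 ≠ ⊤ := by
      rcases p.2 with h | h
      · refine ⟨h.1, fun h1 => hp ?_⟩
        have h2 : s ⊓ p.1.1 ≠ ⊥ := fun h2 => h.2.2.2 (IsCompl.of_eq h2 h1)
        rw [h.1] at h1 h2
        obtain ⟨z, _, hz⟩ := hglb p h1 h2
        exact ⟨z, hz⟩
      · exfalso
        obtain ⟨z, _, hz⟩ := hglb p h.2.1 h.2.2.1
        exact hp ⟨z, hz⟩
    have hpq' : p.1 ≤ q.1 := hpq.le
    -- the second coordinate of `q`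
    have hmσ : m ≤ σ := hm.1 (Set.mem_insert _ _)
    have hmq : m ≤ q := hm.1 (Set.mem_insert_of_mem _ rfl)
    obtain ⟨hm1, hm2, hm3⟩ := hbelow m hmσ
    have hq1 : s ⊔ q.1.2 = ⊤ :=
      top_le_iff.1 (hm2.ge.trans (sup_le_sup_left (hmq : m.1 ≤ q.1).2 s))
    have hq2 : s ⊓ q.1.2 ≠ ⊥ := fun h =>
      hm3 (le_bot_iff.1 ((inf_le_inf_left s (hmq : m.1 ≤ q.1).2).trans h.le))
    obtain ⟨z, hz1, hz⟩ := hglb q hq1 hq2
    have hmz : m = z := hm.unique hz
    have hm12 : m.1 = (⊥, q.1.2) := by rw [hmz, hz1]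
    have hpq2 : p.1.1 ≤ q.1.2 := by
      rw [hpd.1]
      exact hpq'.2
    refine ⟨⟨(p.1.1, q.1.2), Or.inr ⟨hpd.2, hq1, hq2, hpq2⟩⟩, ?_, ?_⟩
    · intro t ht
      simp only [Set.mem_insert_iff, Set.mem_singleton_iff] at ht
      rcases ht with ht | ht
      · rw [ht]
        show m.1 ≤ (p.1.1, q.1.2)
        rw [hm12]
        exact ⟨bot_le, le_refl _⟩
      · rw [ht]
        show p.1 ≤ (p.1.1, q.1.2)
        exact ⟨le_refl _, hpq'.2⟩
    · intro t ht
      have h3 : m ≤ t := ht (Set.mem_insert _ _)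
      have h4 : p ≤ t := ht (Set.mem_insert_of_mem _ rfl)
      have h5 : m.1 ≤ t.1 := h3
      rw [hm12] at h5
      exact ⟨(h4 : p.1 ≤ t.1).1, h5.2⟩
  · intro x y z hxy hyz hzσ
    have hz := hbelow z hzσ.le
    have hy := hbelow y (hyz.le.trans hzσ.le)
    have hx := hbelow x (hxy.le.trans (hyz.le.trans hzσ.le))
    have e1 : x.1.2 < y.1.2 := by
      refine lt_of_le_of_ne (hxy.le : x.1 ≤ y.1).2 fun h => hxy.ne ?_
      exact Subtype.ext (Prod.ext (hx.1.trans hy.1.symm) h)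
    have e2 : y.1.2 < z.1.2 := by
      refine lt_of_le_of_ne (hyz.le : y.1 ≤ z.1).2 fun h => hyz.ne ?_
      exact Subtype.ext (Prod.ext (hy.1.trans hz.1.symm) h)
    have h3 := hco _ _ _ hx.2.1 hx.2.2 e1 e2
    apply hzσ.ne
    exact Subtype.ext (Prod.ext hz.1 h3)

end Pool.Agent.Results.MP_3976d4_co.LatticeFullJoins
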