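import Pool.Agent.H444R2.SE.All

set_option autoImplicit false

namespace Pool.Agent.Results.MP_3976d4_co.LatticeMeetValues

/-!
The lattice form of the question. Let `L` be a bounded lattice of finite length and `s ≠ 0, 1`, and
suppose that there are no `x, y, z` with `s ∨ x = s ∨ y = s ∨ z = 1`, `z ≠ 1` and
`0 < s ∧ x < s ∧ y < s ∧ z`. Then `L` minus `0`, `1` and all complements of `s` has the fixed point
property. This contains the case that `s` has height at most three in `L`.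

Proof idea: this poset is a retract of a poset of triples `(a, b, i)`, `a, b` in `L`, `i` a truth
value, ordered componentwise, by the retraction `(a, b, i) ↦ a ∨ (s ∧ b)`. The triple `(0, 1, 1)` is
a special element, and the elements below it are the triples `(0, s ∧ y, 1)` with `s ∨ y = 1` and
`s ∧ y ≠ 0`, so that the theorem `HeightTwo` of this folder applies.
-/

/-- The elements of `L` different from `⊥`, `⊤` and from all complements of `s`. -/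
def Core {L : Type} [Lattice L] [BoundedOrder L] (s : L) : Type :=
  {x : L // x ≠ ⊥ ∧ x ≠ ⊤ ∧ ¬ IsCompl s x}

instance {L : Type} [Lattice L] [BoundedOrder L] (s : L) : PartialOrder (Core s) :=
  inferInstanceAs (PartialOrder {x : L // x ≠ ⊥ ∧ x ≠ ⊤ ∧ ¬ IsCompl s x})

theorem result :
    ∀ (L : Type) [Lattice L] [BoundedOrder L],
      (∃ n : ℕ, ∀ c : Finset L, IsChain (· ≤ ·) (c : Set L) → c.card ≤ n) →
      ∀ s : L, s ≠ ⊥ → s ≠ ⊤ →
        (∀ x y z : L, s ⊔ x = ⊤ → s ⊔ y = ⊤ → s ⊔ z = ⊤ → s ⊓ x ≠ ⊥ →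
          s ⊓ x < s ⊓ y → s ⊓ y < s ⊓ z → z = ⊤) →
        ∀ f : Core s → Core s, Monotone f → ∃ x : Core s, f x = x := by
  classical
  intro L _ _ hlen s hs0 hs1 hco f hf
  let Q : L × L × Prop → Prop := fun p =>
    (p.1 = p.2.1 ∧ p.1 ≠ ⊥ ∧ s ⊔ p.1 ≠ ⊤ ∧ ¬ p.2.2) ∨
    (p.1 = p.2.1 ∧ s ⊔ p.1 = ⊤ ∧ s ⊓ p.1 ≠ ⊥ ∧ p.1 ≠ ⊤ ∧ p.2.2) ∨
    (s ⊔ p.1 ≠ ⊤ ∧ s ⊓ p.2.1 ≠ ⊥ ∧ p.2.2 ∧ p.1 ≤ p.2.1 ∧
      (p.2.1 = ⊤ ∨ ∃ y, s ⊔ y = ⊤ ∧ s ⊓ y ≠ ⊥ ∧ y ≠ ⊤ ∧ p.2.1 ≤ y) ∧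
      (p.1 = ⊥ → p.2.1 = ⊤ ∨ ∃ y, s ⊔ y = ⊤ ∧ s ⊓ y ≠ ⊥ ∧ y ≠ ⊤ ∧ p.2.1 = s ⊓ y))
  let P := {p : L × L × Prop // Q p}
  have hsb : s ⊔ (⊥ : L) ≠ ⊤ := by simpa using hs1
  have hst : s ⊓ (⊤ : L) ≠ ⊥ := by simpa using hs0
  let σ : P := ⟨(⊥, ⊤, True), Or.inr (Or.inr ⟨hsb, hst, trivial, bot_le, Or.inl rfl,
    fun _ => Or.inl rfl⟩)⟩
  have hr : ∀ p : P, p.1.1 ⊔ (s ⊓ p.1.2.1) ≠ ⊥ ∧ p.1.1 ⊔ (s ⊓ p.1.2.1) ≠ ⊤ ∧
      ¬ IsCompl s (p.1.1 ⊔ (s ⊓ p.1.2.1)) := by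
    rintro ⟨⟨a, b, i⟩, h⟩
    simp only [Q] at h ⊢
    rcases h with ⟨hab, h1, h2, h3⟩ | ⟨hab, h1, h2, h3, h4⟩ | ⟨h1, h3, -, -, -, -⟩
    · subst hab
      rw [sup_eq_left.2 (inf_le_right : s ⊓ a ≤ a)]
      exact ⟨h1, fun h => h2 (by rw [h]; simp), fun h => h2 h.sup_eq_top⟩
    · subst hab
      rw [sup_eq_left.2 (inf_le_right : s ⊓ a ≤ a)]
      exact ⟨fun h => h2 (by rw [h]; simp), h3, fun h => h2 h.inf_eq_bot⟩
    · refine ⟨?_, ?_, ?_⟩
      · intro h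
        exact h3 (le_bot_iff.1 (le_sup_right.trans h.le))
      · intro h
        apply h1
        apply top_le_iff.1
        rw [← h]
        exact sup_le le_sup_right (inf_le_left.trans le_sup_left)
      · intro h
        have h5 := h.inf_eq_bot
        apply h3
        apply le_bot_iff.1
        rw [← h5]
        exact le_inf inf_le_left le_sup_right
  let r : P → Core s := fun p => ⟨p.1.1 ⊔ (s ⊓ p.1.2.1), hr p⟩
  have hrmono : Monotone r := by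
    intro p q hpq
    show p.1.1 ⊔ (s ⊓ p.1.2.1) ≤ q.1.1 ⊔ (s ⊓ q.1.2.1)
    have h : p.1 ≤ q.1 := hpq
    exact sup_le_sup h.1 (inf_le_inf_left s h.2.1)
  have hiota : ∀ q : Core s, Q (q.1, q.1, s ⊔ q.1 = ⊤) := by
    intro q
    by_cases h : s ⊔ q.1 = ⊤
    · exact Or.inr (Or.inl ⟨rfl, h, fun h2 => q.2.2.2 (IsCompl.of_eq h2 h), q.2.2.1, h⟩)
    · exact Or.inl ⟨rfl, q.2.1, h, h⟩
  let F : P → P := fun p => ⟨((f (r p)).1, (f (r p)).1, s ⊔ (f (r p)).1 = ⊤), hiota _⟩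
  have hFmono : Monotone F := by
    intro p q hpq
    have h : (f (r p)).1 ≤ (f (r q)).1 := hf (hrmono hpq)
    show ((f (r p)).1, (f (r p)).1, s ⊔ (f (r p)).1 = ⊤) ≤
      ((f (r q)).1, (f (r q)).1, s ⊔ (f (r q)).1 = ⊤)
    refine ⟨h, h, fun h2 => ?_⟩
    exact top_le_iff.1 (h2.ge.trans (sup_le_sup_left h s))
  -- elements below `σ`
  have hbelow : ∀ p : P, p ≤ σ → p.1.1 = ⊥ ∧ s ⊓ p.1.2.1 ≠ ⊥ ∧ p.1.2.2 ∧
      (p.1.2.1 = ⊤ ∨ ∃ y, s ⊔ y = ⊤ ∧ s ⊓ y ≠ ⊥ ∧ y ≠ ⊤ ∧ p.1.2.1 = s ⊓ y) := by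
    intro p hp
    have h : p.1 ≤ ((⊥ : L), (⊤ : L), True) := hp
    have h0 : p.1.1 = ⊥ := le_bot_iff.1 h.1
    rcases p.2 with h1 | h1 | h1
    · exact absurd h0 h1.2.1
    · exfalso
      have h2 := h1.2.1
      rw [h0] at h2
      exact hsb h2
    · exact ⟨h0, h1.2.1, h1.2.2.1, h1.2.2.2.2.2 h0⟩
  -- meets with `σ`
  have hglb : ∀ (p : P), s ⊔ p.1.1 = ⊤ → ∃ z : P, IsGLB ({σ, p} : Set P) z := by
    intro p h1
    rcases p.2 with h | h | h
    · exact absurd h1 h.2.2.1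
    · refine ⟨⟨(⊥, s ⊓ p.1.1, True), Or.inr (Or.inr ⟨hsb, ?_, trivial, bot_le,
        Or.inr ⟨p.1.1, h.2.1, h.2.2.1, h.2.2.2.1, inf_le_right⟩,
        fun _ => Or.inr ⟨p.1.1, h.2.1, h.2.2.1, h.2.2.2.1, rfl⟩⟩)⟩, ?_, ?_⟩
      · show s ⊓ (s ⊓ p.1.1) ≠ ⊥
        rw [← inf_assoc, inf_idem]
        exact h.2.2.1
      · intro q hq
        simp only [Set.mem_insert_iff, Set.mem_singleton_iff] at hq
        rcases hq with hq | hq
        · rw [hq]
          exact ⟨le_refl _, le_top, fun _ => trivial⟩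
        · rw [hq]
          show ((⊥ : L), s ⊓ p.1.1, True) ≤ p.1
          exact ⟨bot_le, inf_le_right.trans h.1.le, fun _ => h.2.2.2.2⟩
      · intro q hq
        have h3 : q ≤ σ := hq (Set.mem_insert _ _)
        have h4 : q.1 ≤ p.1 := hq (Set.mem_insert_of_mem _ rfl)
        obtain ⟨k1, k2, k3, k4⟩ := hbelow q h3
        have h5 : q.1.2.1 ≤ p.1.1 := h4.2.1.trans h.1.ge
        show q.1 ≤ ((⊥ : L), s ⊓ p.1.1, True)
        refine ⟨k1.le, ?_, fun _ => trivial⟩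
        rcases k4 with k4 | ⟨y, _, _, _, k4⟩
        · exfalso
          rw [k4] at h5
          exact h.2.2.2.1 (top_le_iff.1 h5)
        · refine le_inf ?_ h5
          rw [k4]
          exact inf_le_left
    · exact absurd h1 h.1
  -- joins with `σ`
  have hlub : ∀ (p : P), s ⊔ p.1.1 ≠ ⊤ → ∃ z : P, IsLUB ({σ, p} : Set P) z := by
    intro p h1
    refine ⟨⟨(p.1.1, ⊤, True), Or.inr (Or.inr ⟨h1, hst, trivial, le_top, Or.inl rfl,
      fun _ => Or.inl rfl⟩)⟩, ?_, ?_⟩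
    · intro q hq
      simp only [Set.mem_insert_iff, Set.mem_singleton_iff] at hq
      rcases hq with hq | hq
      · rw [hq]
        exact ⟨bot_le, le_refl _, fun _ => trivial⟩
      · rw [hq]
        exact ⟨le_refl _, le_top, fun _ => trivial⟩
    · intro q hq
      have h3 : σ.1 ≤ q.1 := hq (Set.mem_insert _ _)
      have h4 : p.1 ≤ q.1 := hq (Set.mem_insert_of_mem _ rfl)
      exact ⟨h4.1, h3.2.1, h3.2.2⟩
  have hmain := Pool.Agent.H444R2.SE.all_F4 P ?_ σ ?_ ?_ (Or.inr ?_) F hFmono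
  · obtain ⟨p, hp⟩ := hmain
    refine ⟨f (r p), ?_⟩
    have h1 : p.1 = ((f (r p)).1, (f (r p)).1, s ⊔ (f (r p)).1 = ⊤) := by
      rw [← congrArg Subtype.val hp]
    have h2 : r p = f (r p) := by
      apply Subtype.ext
      show p.1.1 ⊔ (s ⊓ p.1.2.1) = (f (r p)).1
      rw [h1]
      exact sup_eq_left.2 inf_le_right
    rw [← h2]
    exact h2.symm
  · obtain ⟨n, hn⟩ := hlen
    refine ⟨n * (n * 2), ?_⟩
    intro c hc
    have hch : ∀ g : P → L, Monotone g → (c.image g).card ≤ n := by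
      intro g hg
      apply hn
      intro x hx y hy hxy
      rw [Finset.mem_coe, Finset.mem_image] at hx hy
      obtain ⟨x', hx', rfl⟩ := hx
      obtain ⟨y', hy', rfl⟩ := hy
      have hne : x' ≠ y' := fun h => hxy (by rw [h])
      rcases hc hx' hy' hne with h | h
      · exact Or.inl (hg h)
      · exact Or.inr (hg h)
    have h1 := hch (fun p => p.1.1) (fun p q h => (h : p.1 ≤ q.1).1)
    have h2 := hch (fun p => p.1.2.1) (fun p q h => (h : p.1 ≤ q.1).2.1)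
    have h3 : c.card ≤ ((c.image fun p : P => p.1.1) ×ˢ ((c.image fun p : P => p.1.2.1) ×ˢ
        (Finset.univ : Finset Prop))).card := by
      apply Finset.card_le_card_of_injOn (fun p : P => p.1)
      · intro p hp
        rw [Finset.mem_coe, Finset.mem_product, Finset.mem_product]
        exact ⟨Finset.mem_image_of_mem _ hp, Finset.mem_image_of_mem _ hp, Finset.mem_univ _⟩
      · intro p _ q _ h
        exact Subtype.ext h
    rw [Finset.card_product, Finset.card_product] at h3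
    have h4 : (Finset.univ : Finset Prop).card = 2 := by
      rw [Finset.card_univ]
      exact Fintype.card_prop
    rw [h4] at h3
    exact h3.trans (Nat.mul_le_mul h1 (Nat.mul_le_mul h2 le_rfl))
  · intro p
    by_cases h : s ⊔ p.1.1 = ⊤
    · exact Or.inr (hglb p h)
    · exact Or.inl (hlub p h)
  · intro p q hpq hp m hm
    have hp1 : s ⊔ p.1.1 ≠ ⊤ := fun h => hp (hglb p h)
    have hp0 : p.1.1 ≠ ⊥ := by
      intro h
      apply hp
      refine ⟨p, ?_, ?_⟩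
      · intro t ht
        simp only [Set.mem_insert_iff, Set.mem_singleton_iff] at ht
        rcases ht with ht | ht
        · rw [ht]
          show p.1 ≤ ((⊥ : L), (⊤ : L), True)
          exact ⟨h.le, le_top, fun _ => trivial⟩
        · rw [ht]
      · intro t ht
        exact ht (Set.mem_insert_of_mem _ rfl)
    have hpab : p.1.1 ≤ p.1.2.1 := by
      rcases p.2 with h | h | h
      · exact h.1.le
      · exact h.1.le
      · exact h.2.2.2.1
    have hpq' : p.1 ≤ q.1 := hpq.le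
    have hmσ : m ≤ σ := hm.1 (Set.mem_insert _ _)
    have hmq : m.1 ≤ q.1 := hm.1 (Set.mem_insert_of_mem _ rfl)
    obtain ⟨hm1, hm2, hm3, hm4⟩ := hbelow m hmσ
    have hbd : p.1.2.1 ⊔ m.1.2.1 = ⊤ ∨
        ∃ y, s ⊔ y = ⊤ ∧ s ⊓ y ≠ ⊥ ∧ y ≠ ⊤ ∧ p.1.2.1 ⊔ m.1.2.1 ≤ y := by
      have hle : p.1.2.1 ⊔ m.1.2.1 ≤ q.1.2.1 := sup_le hpq'.2.1 hmq.2.1
      have hqi : q.1.2.2 := hmq.2.2 hm3
      rcases q.2 with h | h | h
      · exact absurd hqi h.2.2.2
      · refine Or.inr ⟨q.1.1, h.2.1, h.2.2.1, h.2.2.2.1, hle.trans h.1.ge⟩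
      · rcases h.2.2.2.2.1 with h1 | ⟨y, y1, y2, y3, y4⟩
        · left
          have hσm : σ ≤ m := by
            apply hm.2
            intro t ht
            simp only [Set.mem_insert_iff, Set.mem_singleton_iff] at ht
            rcases ht with ht | ht
            · rw [ht]
            · rw [ht]
              show ((⊥ : L), (⊤ : L), True) ≤ q.1
              exact ⟨bot_le, h1.ge, fun _ => hqi⟩
          have h2 : (⊤ : L) ≤ m.1.2.1 := (hσm : σ.1 ≤ m.1).2.1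
          exact top_le_iff.1 (h2.trans le_sup_right)
        · exact Or.inr ⟨y, y1, y2, y3, hle.trans y4⟩
    have hnb : s ⊓ (p.1.2.1 ⊔ m.1.2.1) ≠ ⊥ := fun h =>
      hm2 (le_bot_iff.1 ((inf_le_inf_left s le_sup_right).trans h.le))
    refine ⟨⟨(p.1.1, p.1.2.1 ⊔ m.1.2.1, True), Or.inr (Or.inr ⟨hp1, hnb, trivial,
      hpab.trans le_sup_left, hbd, fun h => absurd h hp0⟩)⟩, ?_, ?_⟩
    · intro t ht
      simp only [Set.mem_insert_iff, Set.mem_singleton_iff] at ht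
      rcases ht with ht | ht
      · rw [ht]
        show m.1 ≤ (p.1.1, p.1.2.1 ⊔ m.1.2.1, True)
        exact ⟨hm1.le.trans bot_le, le_sup_right, fun _ => trivial⟩
      · rw [ht]
        show p.1 ≤ (p.1.1, p.1.2.1 ⊔ m.1.2.1, True)
        exact ⟨le_refl _, le_sup_left, fun _ => trivial⟩
    · intro t ht
      have h3 : m.1 ≤ t.1 := ht (Set.mem_insert _ _)
      have h4 : p.1 ≤ t.1 := ht (Set.mem_insert_of_mem _ rfl)
      exact ⟨h4.1, sup_le h4.2.1 h3.2.1, fun _ => h3.2.2 hm3⟩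
  · intro x y z hxy hyz hzσ
    obtain ⟨z1, z2, z3, z4⟩ := hbelow z hzσ.le
    obtain ⟨y1, y2, y3, y4⟩ := hbelow y (hyz.le.trans hzσ.le)
    obtain ⟨x1, x2, x3, x4⟩ := hbelow x (hxy.le.trans (hyz.le.trans hzσ.le))
    have key : ∀ u v : P, u.1.1 = ⊥ → v.1.1 = ⊥ → u.1.2.2 → v.1.2.2 → u < v →
        u.1.2.1 < v.1.2.1 := by
      intro u v hu hv hu2 hv2 huv
      refine lt_of_le_of_ne (huv.le : u.1 ≤ v.1).2.1 fun h => huv.ne ?_
      exact Subtype.ext (Prod.ext (hu.trans hv.symm)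
        (Prod.ext h ((eq_true hu2).trans (eq_true hv2).symm)))
    have e1 := key x y x1 y1 x3 y3 hxy
    have e2 := key y z y1 z1 y3 z3 hyz
    have e3 := key z σ z1 rfl z3 trivial hzσ
    rcases x4 with x4 | ⟨x', a1, a2, a3, a4⟩
    · rw [x4] at e1
      exact not_top_lt e1
    rcases y4 with y4 | ⟨y', b1, b2, b3, b4⟩
    · rw [y4] at e2
      exact not_top_lt e2
    rcases z4 with z4 | ⟨z', c1, c2, c3, c4⟩
    · rw [z4] at e3
      exact not_top_lt e3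
    rw [a4, b4] at e1
    rw [b4, c4] at e2
    exact c3 (hco x' y' z' a1 b1 c1 a2 e1 e2)

end Pool.Agent.Results.MP_3976d4_co.LatticeMeetValues
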